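import Pool.Agent.W536.XI.Stm

set_option autoImplicit false

open Complex MeasureTheory Filter Topology

noncomputable section

namespace Pool.Agent.W571.XI.FRep

open W536.XI

/-- the n-th summand of Phi -/
def psi (n : ℕ) (t : ℝ) : ℝ :=
  2 * ((2 * Real.pi ^ 2 * ((n : ℝ) + 1) ^ 4 * Real.exp (9 * t / 2)
    - 3 * Real.pi * ((n : ℝ) + 1) ^ 2 * Real.exp (5 * t / 2)) *
      Real.exp (-(Real.pi * ((n : ℝ) + 1) ^ 2 * Real.exp (2 * t))))

theorem Phi_eq (t : ℝ) : Phi t = ∑' n : ℕ, psi n t := by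
  unfold Phi psi
  rw [tsum_mul_left]

theorem exp_L (n : ℕ) (c : ℝ) : Real.exp (c * L n) = ((n : ℝ) + 1) ^ c := by
  unfold L
  rw [Real.rpow_def_of_pos (by positivity)]
  congr 1
  ring

theorem exp_L_nat (n : ℕ) (k : ℕ) : Real.exp (k * L n) = ((n : ℝ) + 1) ^ k := by
  rw [exp_L, Real.rpow_natCast]

theorem psi_eq (n : ℕ) (t : ℝ) : psi n t = Real.exp (-(1 / 2) * L n) * phi1 (t + L n) := by
  unfold psi phi1
  have h4 : ((n : ℝ) + 1) ^ 4 = Real.exp (4 * L n) := by
    rw [← exp_L_nat]; norm_num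
  have h2 : ((n : ℝ) + 1) ^ 2 = Real.exp (2 * L n) := by
    rw [← exp_L_nat]; norm_num
  rw [h4, h2]
  have e1 : Real.exp (4 * L n) * Real.exp (9 * t / 2) =
      Real.exp (-(1 / 2) * L n) * Real.exp (9 * (t + L n) / 2) := by
    rw [← Real.exp_add, ← Real.exp_add]; congr 1; ring
  have e2 : Real.exp (2 * L n) * Real.exp (5 * t / 2) =
      Real.exp (-(1 / 2) * L n) * Real.exp (5 * (t + L n) / 2) := by
    rw [← Real.exp_add, ← Real.exp_add]; congr 1; ring
  have e3 : Real.exp (2 * L n) * Real.exp (2 * t) = Real.exp (2 * (t + L n)) := by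
    rw [← Real.exp_add]; congr 1; ring
  rw [show Real.pi * Real.exp (2 * L n) * Real.exp (2 * t) =
    Real.pi * (Real.exp (2 * L n) * Real.exp (2 * t)) by ring, e3]
  have e4 : 2 * Real.pi ^ 2 * Real.exp (4 * L n) * Real.exp (9 * t / 2) =
      Real.exp (-(1 / 2) * L n) * (2 * Real.pi ^ 2 * Real.exp (9 * (t + L n) / 2)) := by
    linear_combination (2 * Real.pi ^ 2) * e1
  have e5 : 3 * Real.pi * Real.exp (2 * L n) * Real.exp (5 * t / 2) =
      Real.exp (-(1 / 2) * L n) * (3 * Real.pi * Real.exp (5 * (t + L n) / 2)) := by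
    linear_combination (3 * Real.pi) * e2
  rw [e4, e5]
  ring

theorem pow_exp_le {w : ℝ} (hw : 0 ≤ w) (k : ℕ) : w ^ k * Real.exp (-w) ≤ (k.factorial : ℝ) := by
  have h1 := Real.pow_div_factorial_le_exp w hw k
  have h2 : (0 : ℝ) < k.factorial := by exact_mod_cast Nat.factorial_pos k
  rw [div_le_iff₀ h2] at h1
  have h3 : Real.exp w * Real.exp (-w) = 1 := by rw [← Real.exp_add]; simp
  calc w ^ k * Real.exp (-w) ≤ (Real.exp w * k.factorial) * Real.exp (-w) :=
        mul_le_mul_of_nonneg_right h1 (Real.exp_pos _).le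
    _ = (Real.exp w * Real.exp (-w)) * k.factorial := by ring
    _ = _ := by rw [h3, one_mul]

theorem phi1_le (x : ℝ) : |phi1 x| ≤ 12 * Real.exp (-(3 / 2) * x) := by
  have hpi := Real.pi_pos
  have hpi3 := Real.pi_gt_three
  set w : ℝ := Real.pi * Real.exp (2 * x) with hw
  have hw0 : 0 < w := by positivity
  have h3 := pow_exp_le hw0.le 3
  have h2 := pow_exp_le hw0.le 2
  have e1 : Real.exp (9 * x / 2) = Real.exp (-(3 / 2) * x) * (Real.exp (2 * x)) ^ 3 := by
    rw [← Real.exp_nat_mul, ← Real.exp_add]; congr 1; push_cast; ring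
  have e2 : Real.exp (5 * x / 2) = Real.exp (-(3 / 2) * x) * (Real.exp (2 * x)) ^ 2 := by
    rw [← Real.exp_nat_mul, ← Real.exp_add]; congr 1; push_cast; ring
  unfold phi1
  rw [← hw, e1, e2]
  set E := Real.exp (-(3 / 2) * x) with hE
  have hE0 : 0 < E := Real.exp_pos _
  set u := Real.exp (2 * x) with hu
  have hu0 : 0 < u := Real.exp_pos _
  set ew := Real.exp (-w) with hew
  have hew0 : 0 < ew := Real.exp_pos _
  have hf3 : ((Nat.factorial 3 : ℕ) : ℝ) = 6 := by norm_num [Nat.factorial]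
  have hf2 : ((Nat.factorial 2 : ℕ) : ℝ) = 2 := by norm_num [Nat.factorial]
  rw [hf3] at h3
  rw [hf2] at h2
  have k3 : Real.pi ^ 2 * u ^ 3 * ew ≤ 2 := by
    have : Real.pi * (Real.pi ^ 2 * u ^ 3 * ew) ≤ 6 := by
      calc Real.pi * (Real.pi ^ 2 * u ^ 3 * ew) = w ^ 3 * ew := by rw [hw]; ring
        _ ≤ 6 := h3
    have h0 : 0 ≤ Real.pi ^ 2 * u ^ 3 * ew := by positivity
    nlinarith
  have k2 : Real.pi * u ^ 2 * ew ≤ 2 / 3 := by
    have : Real.pi * (Real.pi * u ^ 2 * ew) ≤ 2 := by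
      calc Real.pi * (Real.pi * u ^ 2 * ew) = w ^ 2 * ew := by rw [hw]; ring
        _ ≤ 2 := h2
    have h0 : 0 ≤ Real.pi * u ^ 2 * ew := by positivity
    nlinarith
  have e3 : 2 * (2 * Real.pi ^ 2 * (E * u ^ 3) - 3 * Real.pi * (E * u ^ 2)) * ew =
      E * (4 * (Real.pi ^ 2 * u ^ 3 * ew) - 6 * (Real.pi * u ^ 2 * ew)) := by ring
  rw [e3, abs_mul, abs_of_pos hE0, mul_comm 12 E]
  apply mul_le_mul_of_nonneg_left _ hE0.le
  have h0 : 0 ≤ Real.pi ^ 2 * u ^ 3 * ew := by positivity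
  have h0' : 0 ≤ Real.pi * u ^ 2 * ew := by positivity
  rw [abs_le]
  constructor <;> linarith

theorem psi_le (n : ℕ) (t : ℝ) : |psi n t| ≤ 12 / ((n : ℝ) + 1) ^ 2 * Real.exp (-(3 / 2) * t) := by
  rw [psi_eq, abs_mul, abs_of_pos (Real.exp_pos _)]
  have h1 := phi1_le (t + L n)
  have h2 : Real.exp (-(1 / 2) * L n) * (12 * Real.exp (-(3 / 2) * (t + L n))) =
      12 / ((n : ℝ) + 1) ^ 2 * Real.exp (-(3 / 2) * t) := by
    have h3 : ((n : ℝ) + 1) ^ 2 = Real.exp (2 * L n) := by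
      rw [← exp_L_nat]; norm_num
    rw [h3, div_mul_eq_mul_div, eq_div_iff (Real.exp_pos _).ne']
    have h4 : Real.exp (-(1 / 2) * L n) * Real.exp (-(3 / 2) * (t + L n)) * Real.exp (2 * L n) =
        Real.exp (-(3 / 2) * t) := by
      rw [← Real.exp_add, ← Real.exp_add]; congr 1; ring
    linear_combination 12 * h4
  rw [← h2]
  exact mul_le_mul_of_nonneg_left h1 (Real.exp_pos _).le

theorem sum12 : Summable (fun n : ℕ => 12 / ((n : ℝ) + 1) ^ 2) := by
  have h := (summable_nat_add_iff 1).2 (Real.summable_one_div_nat_pow.2 (le_refl 2))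
  have h2 := h.mul_left 12
  refine h2.congr ?_
  intro n
  push_cast
  ring

theorem psi_summable (t : ℝ) : Summable (fun n => psi n t) := by
  apply Summable.of_norm_bounded (g := fun n : ℕ => 12 / ((n : ℝ) + 1) ^ 2 *
    Real.exp (-(3 / 2) * t)) (sum12.mul_right _)
  intro n
  exact psi_le n t

theorem psi_cont (n : ℕ) : Continuous (psi n) := by
  unfold psi
  fun_prop

theorem Phi_meas : Measurable Phi := by
  have h : Phi = fun t => ∑' n, psi n t := funext Phi_eq
  rw [h]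
  apply measurable_of_tendsto_metrizable (f := fun N t => ∑ n ∈ Finset.range N, psi n t)
  · intro N
    exact Finset.measurable_sum _ (fun n _ => (psi_cont n).measurable)
  · rw [tendsto_pi_nhds]
    intro t
    exact (psi_summable t).hasSum.tendsto_sum_nat

/-- the total constant -/
def C0 : ℝ := ∑' n : ℕ, 12 / ((n : ℝ) + 1) ^ 2

theorem Phi_le (t : ℝ) : |Phi t| ≤ C0 * Real.exp (-(3 / 2) * t) := by
  rw [Phi_eq]
  have h1 : ‖∑' n, psi n t‖ ≤ ∑' n : ℕ, 12 / ((n : ℝ) + 1) ^ 2 * Real.exp (-(3 / 2) * t) :=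
    tsum_of_norm_bounded (sum12.mul_right _).hasSum (fun n => psi_le n t)
  rw [tsum_mul_right] at h1
  exact h1

theorem C0_nonneg : 0 ≤ C0 := tsum_nonneg (fun n => by positivity)

/-- the exponential weight -/
def ee (s : ℂ) (t : ℝ) : ℂ := cexp (-(t : ℂ) ^ 2 + (s - 1 / 2) * t)

theorem ee_norm (s : ℂ) (t : ℝ) : ‖ee s t‖ = Real.exp (-t ^ 2 + (s.re - 1 / 2) * t) := by
  unfold ee
  rw [Complex.norm_exp]
  congr 1
  have h1 : (-(t : ℂ) ^ 2 + (s - 1 / 2) * t) =
      ((-t ^ 2 : ℝ) : ℂ) + (s - ((1 / 2 : ℝ) : ℂ)) * ((t : ℝ) : ℂ) := by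
    push_cast; ring
  rw [h1, Complex.add_re, Complex.ofReal_re, Complex.re_mul_ofReal, Complex.sub_re,
    Complex.ofReal_re]

/-- the gaussian majorant -/
def gg (c t : ℝ) : ℝ := Real.exp (-t ^ 2 + c * t)

theorem gg_int (c : ℝ) : Integrable (gg c) := by
  have h := integrable_cexp_quadratic (b := (1 : ℂ)) (by norm_num) (c : ℂ) 0
  have h2 := h.norm
  refine h2.congr ?_
  apply Eventually.of_forall
  intro t
  simp only [gg]
  rw [Complex.norm_exp]
  congr 1
  have h1 : (-(1 : ℂ) * (t : ℂ) ^ 2 + (c : ℂ) * (t : ℂ) + 0) = ((-t ^ 2 + c * t : ℝ) : ℂ) := by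
    push_cast; ring
  rw [h1, Complex.ofReal_re]

theorem term_norm (n : ℕ) (s : ℂ) (t : ℝ) :
    ‖(psi n t : ℂ) * ee s t‖ ≤ 12 / ((n : ℝ) + 1) ^ 2 * gg (s.re - 2) t := by
  rw [norm_mul, ee_norm, Complex.norm_real]
  have h1 := psi_le n t
  calc ‖psi n t‖ * Real.exp (-t ^ 2 + (s.re - 1 / 2) * t)
      ≤ (12 / ((n : ℝ) + 1) ^ 2 * Real.exp (-(3 / 2) * t)) *
        Real.exp (-t ^ 2 + (s.re - 1 / 2) * t) :=
        mul_le_mul_of_nonneg_right h1 (Real.exp_pos _).le
    _ = 12 / ((n : ℝ) + 1) ^ 2 * gg (s.re - 2) t := by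
        rw [mul_assoc, ← Real.exp_add]
        unfold gg
        congr 2
        ring

theorem ee_cont (s : ℂ) : Continuous (ee s) := by
  unfold ee
  fun_prop

theorem term_int (n : ℕ) (s : ℂ) : Integrable (fun t => (psi n t : ℂ) * ee s t) := by
  apply Integrable.mono' ((gg_int (s.re - 2)).const_mul (12 / ((n : ℝ) + 1) ^ 2))
  · apply Continuous.aestronglyMeasurable
    exact (Complex.continuous_ofReal.comp (psi_cont n)).mul (ee_cont s)
  · exact Eventually.of_forall (term_norm n s)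

theorem term_sum (s : ℂ) : Summable (fun n => ∫ t, ‖(psi n t : ℂ) * ee s t‖) := by
  apply Summable.of_nonneg_of_le (f := fun n : ℕ => 12 / ((n : ℝ) + 1) ^ 2 *
    ∫ t, gg (s.re - 2) t)
  · intro n
    exact integral_nonneg (fun t => norm_nonneg _)
  · intro n
    rw [← integral_const_mul]
    exact integral_mono (term_int n s).norm ((gg_int _).const_mul _) (term_norm n s)
  · exact sum12.mul_right _

theorem Tn_eq (n : ℕ) (s : ℂ) : Tn n s = ∫ t, (psi n t : ℂ) * ee s t := by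
  unfold Tn G
  rw [← integral_add_right_eq_self (fun x : ℝ => (phi1 x : ℂ) *
    cexp (-(x : ℂ) ^ 2 + (s + 2 * L n - 1 / 2) * x)) (L n), ← integral_const_mul]
  congr 1
  ext t
  rw [psi_eq]
  unfold ee
  have h1 : cexp (-(s * L n) - (L n : ℂ) ^ 2) *
      cexp (-((t + L n : ℝ) : ℂ) ^ 2 + (s + 2 * L n - 1 / 2) * ((t + L n : ℝ) : ℂ)) =
      ((Real.exp (-(1 / 2) * L n) : ℝ) : ℂ) * cexp (-(t : ℂ) ^ 2 + (s - 1 / 2) * t) := by
    rw [Complex.ofReal_exp, ← Complex.exp_add, ← Complex.exp_add]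
    congr 1
    push_cast
    ring
  calc cexp (-(s * L n) - (L n : ℂ) ^ 2) * ((phi1 (t + L n) : ℂ) *
        cexp (-((t + L n : ℝ) : ℂ) ^ 2 + (s + 2 * L n - 1 / 2) * ((t + L n : ℝ) : ℂ)))
      = (phi1 (t + L n) : ℂ) * (cexp (-(s * L n) - (L n : ℂ) ^ 2) *
        cexp (-((t + L n : ℝ) : ℂ) ^ 2 + (s + 2 * L n - 1 / 2) * ((t + L n : ℝ) : ℂ))) := by
        ring
    _ = _ := by
        rw [h1]
        push_cast
        ring

theorem F_eq (s : ℂ) : F s = ∫ t, (∑' n, (psi n t : ℂ) * ee s t) := by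
  unfold F XiL
  congr 1
  ext t
  rw [tsum_mul_right, ← Complex.ofReal_tsum, ← Phi_eq]
  unfold ee
  rw [mul_assoc, ← Complex.exp_add]
  congr 2
  have : I * (-I * (s - 1 / 2)) = (s - 1 / 2) := by
    linear_combination (-(s - 1 / 2)) * Complex.I_sq
  rw [this]
  push_cast
  ring

theorem part1 (s : ℂ) : Summable (fun n => ‖Tn n s‖) ∧ F s = ∑' n, Tn n s := by
  constructor
  · apply Summable.of_nonneg_of_le (fun n => norm_nonneg _) _ (term_sum s)
    intro n
    rw [Tn_eq]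
    exact norm_integral_le_integral_norm _
  · have h := hasSum_integral_of_summable_integral_norm (fun n => term_int n s) (term_sum s)
    rw [F_eq, ← h.tsum_eq]
    congr 1
    ext n
    exact (Tn_eq n s).symm

theorem XiL_deriv (z0 : ℂ) : DifferentiableAt ℂ (XiL (-1)) z0 := by
  set R : ℝ := ‖z0‖ + 1 with hR
  have hR0 : 0 ≤ R := by positivity
  have hmeas : ∀ z : ℂ, AEStronglyMeasurable
      (fun t : ℝ => (Phi t : ℂ) * cexp (((-1 : ℝ) : ℂ) * (t : ℂ) ^ 2) * cexp (I * z * t)) volume := by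
    intro z
    apply AEStronglyMeasurable.mul
    · apply AEStronglyMeasurable.mul
      · exact (Complex.measurable_ofReal.comp Phi_meas).aestronglyMeasurable
      · apply Continuous.aestronglyMeasurable; fun_prop
    · apply Continuous.aestronglyMeasurable; fun_prop
  have hmeas' : AEStronglyMeasurable
      (fun t : ℝ => (Phi t : ℂ) * cexp (((-1 : ℝ) : ℂ) * (t : ℂ) ^ 2) *
        (cexp (I * z0 * t) * (I * t))) volume := by
    apply AEStronglyMeasurable.mul
    · apply AEStronglyMeasurable.mul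
      · exact (Complex.measurable_ofReal.comp Phi_meas).aestronglyMeasurable
      · apply Continuous.aestronglyMeasurable; fun_prop
    · apply Continuous.aestronglyMeasurable; fun_prop
  have hgauss : ∀ t : ℝ, ‖cexp (((-1 : ℝ) : ℂ) * (t : ℂ) ^ 2)‖ = Real.exp (-t ^ 2) := by
    intro t
    rw [Complex.norm_exp]
    congr 1
    have : ((-1 : ℝ) : ℂ) * (t : ℂ) ^ 2 = ((-t ^ 2 : ℝ) : ℂ) := by push_cast; ring
    rw [this, Complex.ofReal_re]
  have hosc : ∀ z : ℂ, ‖z‖ ≤ R → ∀ t : ℝ, ‖cexp (I * z * t)‖ ≤ Real.exp (R * |t|) := by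
    intro z hz t
    refine le_trans (Complex.norm_exp_le_exp_norm _) ?_
    apply Real.exp_le_exp.mpr
    rw [norm_mul, norm_mul, Complex.norm_I, one_mul, Complex.norm_real, Real.norm_eq_abs]
    exact mul_le_mul_of_nonneg_right hz (abs_nonneg _)
  have habs : ∀ t : ℝ, Real.exp (-t ^ 2 + (R + 3) * |t|) ≤ gg (R + 3) t + gg (-(R + 3)) t := by
    intro t
    unfold gg
    rcases abs_cases t with ⟨h, _⟩ | ⟨h, _⟩
    · rw [h]; linarith [Real.exp_pos (-t ^ 2 + -(R + 3) * t)]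
    · rw [h]
      have : -t ^ 2 + (R + 3) * -t = -t ^ 2 + -(R + 3) * t := by ring
      rw [this]; linarith [Real.exp_pos (-t ^ 2 + (R + 3) * t)]
  have hC0 := C0_nonneg
  have hmain : ∀ z : ℂ, ‖z‖ ≤ R → ∀ t : ℝ, ∀ w : ℂ, ‖w‖ ≤ Real.exp |t| →
      ‖(Phi t : ℂ) * cexp (((-1 : ℝ) : ℂ) * (t : ℂ) ^ 2) * (cexp (I * z * t) * w)‖ ≤
        C0 * (gg (R + 3) t + gg (-(R + 3)) t) := by
    intro z hz t w hw
    rw [norm_mul, norm_mul, norm_mul, hgauss, Complex.norm_real]
    have h1 := Phi_le t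
    have h2 := hosc z hz t
    have h3 : ‖Phi t‖ * Real.exp (-t ^ 2) * (‖cexp (I * z * t)‖ * ‖w‖) ≤
        (C0 * Real.exp (-(3 / 2) * t)) * Real.exp (-t ^ 2) *
          (Real.exp (R * |t|) * Real.exp |t|) := by
      apply mul_le_mul
      · exact mul_le_mul_of_nonneg_right h1 (Real.exp_pos _).le
      · exact mul_le_mul h2 hw (norm_nonneg _) (Real.exp_pos _).le
      · positivity
      · positivity
    refine le_trans h3 ?_
    have h4 : (C0 * Real.exp (-(3 / 2) * t)) * Real.exp (-t ^ 2) *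
        (Real.exp (R * |t|) * Real.exp |t|) =
        C0 * Real.exp (-(3 / 2) * t + -t ^ 2 + R * |t| + |t|) := by
      rw [Real.exp_add, Real.exp_add, Real.exp_add]; ring
    rw [h4]
    apply mul_le_mul_of_nonneg_left _ hC0
    refine le_trans (Real.exp_le_exp.mpr ?_) (habs t)
    have h5 : -(3 / 2) * t ≤ 3 / 2 * |t| := by
      have := neg_abs_le t
      linarith
    have h6 := abs_nonneg t
    linarith
  have hbint : Integrable (fun t => C0 * (gg (R + 3) t + gg (-(R + 3)) t)) :=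
    ((gg_int _).add (gg_int _)).const_mul C0
  have hder := hasDerivAt_integral_of_dominated_loc_of_deriv_le
    (F := fun (z : ℂ) (t : ℝ) =>
      (Phi t : ℂ) * cexp (((-1 : ℝ) : ℂ) * (t : ℂ) ^ 2) * cexp (I * z * t))
    (F' := fun (z : ℂ) (t : ℝ) =>
      (Phi t : ℂ) * cexp (((-1 : ℝ) : ℂ) * (t : ℂ) ^ 2) * (cexp (I * z * t) * (I * t)))
    (x₀ := z0) (s := Metric.ball z0 1) (μ := volume)
    (bound := fun t => C0 * (gg (R + 3) t + gg (-(R + 3)) t))
    (Metric.ball_mem_nhds z0 one_pos)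
    (Eventually.of_forall hmeas)
    (by
      apply Integrable.mono' hbint (hmeas z0)
      apply Eventually.of_forall
      intro t
      have := hmain z0 (by rw [hR]; linarith) t 1 (by
        rw [norm_one]; exact Real.one_le_exp (abs_nonneg t))
      rw [mul_one] at this
      exact this)
    hmeas'
    (by
      apply Eventually.of_forall
      intro t z hz
      apply hmain z _ t
      · rw [norm_mul, Complex.norm_I, one_mul, Complex.norm_real, Real.norm_eq_abs]
        linarith [Real.add_one_le_exp |t|]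
      · rw [Metric.mem_ball, dist_eq_norm] at hz
        have h7 : ‖z‖ ≤ ‖z - z0‖ + ‖z0‖ := by
          calc ‖z‖ = ‖(z - z0) + z0‖ := by rw [sub_add_cancel]
            _ ≤ _ := norm_add_le _ _
        rw [hR]; linarith)
    hbint
    (by
      apply Eventually.of_forall
      intro t z _
      apply HasDerivAt.const_mul
      have h8 : HasDerivAt (fun z : ℂ => I * z * (t : ℂ)) (I * t) z := by
        simpa using ((hasDerivAt_id z).const_mul I).mul_const (t : ℂ)
      exact h8.cexp)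
  have h9 := hder.2.differentiableAt
  unfold XiL
  exact h9

theorem frep : S_FREP := ⟨part1, fun z => XiL_deriv z⟩

end Pool.Agent.W571.XI.FRep
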